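import Pool.Agent.H92P.BiaVP
import Pool.Agent.H92.HB.Cplx

/-!
# Rank zero and an upper bound for the Tate-Shafarevich group over large families of extensions of prime power degree

`K` is an imaginary quadratic field of class number one, `p` a prime number, and `E_i : y² = x³ + a_i x + b_i`,
`i = 1, …, m`, are elliptic curves over `K`, not necessarily `ℚ`-curves or base changes from `ℚ`, with Bianchi newforms
`f_i` of weight two: `L(E_i/K, s) = L(f_i, s)`.  Suppose that `z_i = L(E_i/K, 1) ≠ 0`, that `E_i(K)` is finite of order prime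
to `p`, and that `Ш(E_i/K)[p^∞]` is finite, of any order (for base changes of curves over `ℚ`, and their twists, the
finiteness is a theorem of Kolyvagin).  A place `v ∤ 2p(4a_i³ + 27b_i²)` of `K` is admissible if `N(v) ≡ 1 mod p` and
`p ∤ #E_i(𝓞/v)`.  The characters `χ` are those of `K` (of `Gal(K^ab/K)`) whose order divides `p^e` and whose conductor is a
product of different admissible places; `e` is arbitrary.

Theorem.  Every infinite group `𝒢` of the characters has an infinite subgroup `ℋ`, stable under any given finite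
group `Δ` of automorphisms of `𝒢`, with the following property: the places `v ∣ 2p(4a_i³ + 27b_i²)` split completely in the
class fields `F` of the finite subgroups of `ℋ`; `L(E_i ⊗ χ, 1) ≠ 0` with the exact `p`-part for `χ ∈ ℋ`; and
`L(E_i/F, 1) ≠ 0` with the exact `p`-part, that is, the `p`-part of `L(E_i/F, 1)` is that of `L(E_i/K, 1)^[F:K]` divided by
the square root of the norm of the discriminant of `F/K`, which is prime to `p`; the group `E_i(F)` is finite of order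
prime to `p`, the group `Ш(E_i/F)[p^∞]` is finite, `#Ш(E_i/K)[p^∞]` divides `#Ш(E_i/F)[p^∞]`, and `#Ш(E_i/F)[p^∞]` divides
`(#Ш(E_i/K)[p^∞])^[F:K]`.  So the conjecture of Birch and Swinnerton-Dyer on the rank holds for `E_i/F`; the `p`-part of
the formula for the leading coefficient predicts the value `(#Ш(E_i/K)[p^∞])^[F:K]` for `#Ш(E_i/F)[p^∞]` if it is true for
`E_i/K`, as the periods and the Tamagawa numbers of `E_i/F` are the `[F:K]`-th powers of those of `E_i/K`, and the theorem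
gives the upper bound, and equality if `Ш(E_i/K)[p^∞] = 0`.
More exactly: there are bounds `B(0) < B(1) < …`, which depend only on the `E_i`, on `p`, on `e` and on the order of `Δ`, such
that from every sequence `χ_0, χ_1, …` in `𝒢` one gets elements of such an `ℋ` as products `∏_{j ∈ S_k} χ_j` over certain
nonempty sets `S_k` of indices in `[B(k), B(k + 1))`, `k ≥ 0`; a finite group `𝒢` of more than `p^(e B(t))` characters has
such a subgroup `ℋ` of order at least `t`; and at most `2^B(1)` translates of the set of the `χ ∈ 𝒢` for which `ℋ = ⟨χ⟩` has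
the property cover `𝒢`: in particular, if `𝒢` is finite, all this is true for `E_i` over the cyclic extensions `F_χ/K` for at
least `2^(-B(1)) #𝒢` characters `χ ∈ 𝒢`.

The library has, over imaginary quadratic `K` and for curves which need not come from `ℚ`, extensions of `2`-power
degree in the case of a trivial `2`-Selmer group over `K` and an odd central value (`BianchiTwoExtensions`).

The proof.  For the central values see `H92P`: the sums `∑ conj χ(x) Φ(x/m)` are polynomial maps of `χ`, and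
a theorem of Ramsey type for such maps gives congruences modulo a high power of `p`.  New is the algebraic side.  Let
`𝓕` be a finite group of the characters, `F` its class field, `G = Gal(F/K)`, and `S` the Selmer group of the multiplication
by `p^M` of `E/F`.  As `E(F)[p] = 0` and as the classes of `F/K` are not ramified at the places where the local points could
change, the invariants of `S` under the subgroups of `G` are the Selmer groups of the intermediate fields; in particular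
`S^G` is finite of order dividing `p^v = #Ш(E/K)[p^∞]`, so that `S` is finite.  The Fitting ideal of the dual of `S` over
`ℤ[G]` contains an element `θ` of augmentation `#S^G`, and for all the subgroups `H` of `𝓕`, with the class field `F_H`, the
order of the Selmer group of `F_H` divides the product of the values `χ(θ)`, `χ ∈ H`.  As a function of `χ`, `χ(θ)` modulo
`p^(v + 1)` is a polynomial map of a degree which is bounded in terms of `e` and `v`, however large `𝓕` is.  So the theorem of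
Ramsey type gives subgroups `H` such that `χ(θ) ≡ #S^G mod p^(v + 1)` for all `χ ∈ H`; then the product is `(#S^G)^#H` times
a number prime to `p`, and the order of the Selmer group of `F_H` divides `p^(v #H)`.  A compactness argument gives the
same for all `M` and infinite `ℋ` (`H92.HB.ram_one2`).
-/

set_option autoImplicit false

open NumberField IsDedekindDomain Matrix Filter Topology

namespace Pool.Agent.Results.MP_1a91b9_nt.BianchiPropagation

/-- `K` is an imaginary quadratic field, `σ` is one of its two embeddings in `ℂ`, and `δ` generates the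
different of `K`: an `x ∈ K` is in `𝓞` if and only if `Tr(x y / δ) ∈ ℤ` for all `y ∈ 𝓞`. -/
structure IsFieldData (K : Type) [Field K] [NumberField K] (σ : K →+* ℂ) (δ : K) : Prop where
  quadratic : Module.finrank ℚ K = 2
  imaginary : ∃ x, (starRingEnd ℂ) (σ x) ≠ σ x
  different : ∀ x : K, (∃ a : 𝓞 K, (a : K) = x) ↔
    ∀ y : 𝓞 K, ∃ m : ℤ, Algebra.trace ℚ K (x * y / δ) = m

/-- `h(y) = ∫_0^∞ exp(-1/v - y v) dv = 2 y^(-1/2) K₁(2 √y)`, with the Bessel function `K₁`. -/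
noncomputable def bessel (y : ℝ) : ℝ := ∫ v in Set.Ioi (0 : ℝ), Real.exp (-(1 / v) - y * v)

/-- The additive character `e(z) = exp(2πi (z/δ + conj (z/δ)))` of `ℂ`, trivial on `𝓞`. -/
noncomputable def addChar (δ z : ℂ) : ℂ :=
  Complex.exp (2 * Real.pi * Complex.I * (z / δ + (starRingEnd ℂ) (z / δ)))

/-- The denominator `|c z + d|² + |c|² t²` of the action of the matrix `(a, b; c, d)` on the hyperbolic
space `{(z, t) : z ∈ ℂ, t > 0}`. -/
noncomputable def den (c d z : ℂ) (t : ℝ) : ℝ := ‖c * z + d‖ ^ 2 + ‖c‖ ^ 2 * t ^ 2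

/-- The first coordinate `((a z + b) conj (c z + d) + a conj(c) t²) / (|c z + d|² + |c|² t²)` of the image
of `(z, t)` under the matrix `(a, b; c, d)`. -/
noncomputable def actZ (a b c d z : ℂ) (t : ℝ) : ℂ :=
  ((a * z + b) * (starRingEnd ℂ) (c * z + d) + a * (starRingEnd ℂ) c * (t : ℂ) ^ 2) /
    (den c d z t : ℂ)

/-- The second coordinate, for a matrix of determinant one; in general it is `|ad - bc|` times this. -/
noncomputable def actT (c d z : ℂ) (t : ℝ) : ℝ := t / den c d z t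

/-- `V_j(t, q) = α^j + β^j` for `α + β = t`, `α β = q`. -/
noncomputable def lucas (t q : ℂ) : ℕ → ℂ
  | 0 => 2
  | 1 => t
  | (j + 2) => t * lucas t q (j + 1) - q * lucas t q j

section field
variable {K : Type} [Field K] [NumberField K]

/-- The function `Φ(z, t) = ∑_{x ∈ 𝓞} c((x)) t² h(N(x) (2πt/|δ|)²) e(x z)
  = (|δ|/π) ∑_{x ≠ 0} (c((x))/|x|) t K₁(4π|x|t/|δ|) e(x z)` on the hyperbolic space, with the coefficients `c`.
Up to a constant factor it is the primitive, zero at the cusp `∞`, of the harmonic differential of the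
form of weight two with the Fourier coefficients `c`: its derivative by `t` is
`-4 ∑_{x ≠ 0} c((x)) t K₀(4π|x|t/|δ|) e(x z)`. -/
noncomputable def primitive (σ : K →+* ℂ) (δ : K) (c : Ideal (𝓞 K) → ℂ) (z : ℂ) (t : ℝ) : ℂ :=
  ∑' x : 𝓞 K, c (Ideal.span {x}) * ((t ^ 2 * bessel (Ideal.absNorm (Ideal.span {x}) *
    (2 * Real.pi * t / ‖σ δ‖) ^ 2) : ℝ) : ℂ) * addChar (σ δ) (σ x * z)

/-- The group `Λ` generated by the values of the primitive `Φ` at the cusps `x/m`, `m ≠ 0` prime to the level (that is,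
by the limits of `Φ(x/m, t)` for `t → 0`). -/
def Lam (σ : K →+* ℂ) (δ : K) (n : 𝓞 K) (c : Ideal (𝓞 K) → ℂ) : AddSubgroup ℂ :=
  AddSubgroup.closure {z | ∃ x m : 𝓞 K, m ≠ 0 ∧ IsCoprime m n ∧
    Tendsto (fun t => primitive σ δ c (σ x / σ m) t) (𝓝[>] 0) (𝓝 z)}

/-- The numbers `c(I)` are the Hecke eigenvalues of a Bianchi newform `f` of weight two, level `(n)` and
trivial character over `K`, with rational eigenvalues: they satisfy `c(𝓞) = 1`, the (trivial) bound `c(I) = O(N(I))`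
and the Hecke relations `c(v I) = c(v) c(I)` for `v ∤ I`, `c(v² I) = c(v) c(v I) - N(v) c(I)` for the primes `v ∤ n`, and
`c(v I) = c(v) c(I)` for `v ∣ n`; the differential `dΦ` of the function `Φ` with the coefficients `c` is
invariant under `Γ₀(n)`, that is, `Φ(γ P) - Φ(P)` is a constant for every `γ ∈ Γ₀(n)`; `dΦ` is an
eigenform, with the eigenvalue `±1`, of the Fricke involution `W = (0, -1; n, 0)`; and the group `Λ` of the values of `Φ` at
cusps is cyclic (this is so for rational eigenvalues, by multiplicity one and the theorem of Manin, Drinfeld and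
Kurčanov: the quotient of `H₁(Γ₀(n), cusps; ℤ)` which belongs to `f` has rank one). -/
structure IsNewform (σ : K →+* ℂ) (δ : K) (n : 𝓞 K) (c : Ideal (𝓞 K) → ℂ) : Prop where
  level : n ≠ 0
  zero : c ⊥ = 0
  one : c ⊤ = 1
  bound : ∃ C : ℝ, ∀ I, ‖c I‖ ≤ C * Ideal.absNorm I
  good : ∀ v : HeightOneSpectrum (𝓞 K), n ∉ v.asIdeal → ∀ I,
    (¬ v.asIdeal ∣ I → c (v.asIdeal * I) = c v.asIdeal * c I) ∧
    c (v.asIdeal * (v.asIdeal * I)) = c v.asIdeal * c (v.asIdeal * I) -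
      Ideal.absNorm v.asIdeal * c I
  bad : ∀ v : HeightOneSpectrum (𝓞 K), n ∈ v.asIdeal → ∀ I,
    c (v.asIdeal * I) = c v.asIdeal * c I
  invariant : ∃ κ : SpecialLinearGroup (Fin 2) (𝓞 K) → ℂ,
    ∀ γ : SpecialLinearGroup (Fin 2) (𝓞 K), n ∣ γ.1 1 0 → ∀ (z : ℂ) (t : ℝ), 0 < t →
      primitive σ δ c (actZ (σ (γ.1 0 0)) (σ (γ.1 0 1)) (σ (γ.1 1 0)) (σ (γ.1 1 1)) z t)
        (actT (σ (γ.1 1 0)) (σ (γ.1 1 1)) z t) = primitive σ δ c z t + κ γ
  fricke : ∃ w κ : ℂ, w * w = 1 ∧ ∀ (z : ℂ) (t : ℝ), 0 < t →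
    primitive σ δ c (actZ 0 (-1) (σ n) 0 z t) (‖σ n‖ * actT (σ n) 0 z t) =
      -w * primitive σ δ c z t + κ
  cyclic : ∃ ω ∈ Lam σ δ n c, ∀ l ∈ Lam σ δ n c, ∃ j : ℤ, l = j * ω

/-- The number of the affine points of `y² = x³ + a x + b` over the residue field of `v`. -/
noncomputable def points (a b : 𝓞 K) (v : HeightOneSpectrum (𝓞 K)) : ℕ :=
  Nat.card {x : (𝓞 K ⧸ v.asIdeal) × (𝓞 K ⧸ v.asIdeal) //
    x.2 ^ 2 = x.1 ^ 3 + (Ideal.Quotient.mk v.asIdeal a) * x.1 + (Ideal.Quotient.mk v.asIdeal b)}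

/-- `f` is the newform of `E : y² = x³ + a x + b`: for `v ∤ 2(4a³ + 27b²)` (so that `E` has good reduction at `v`)
the level is prime to `v` and `c(v) = N(v) + 1 - #E(𝓞/v)`. -/
def IsNewformOf (a b n : 𝓞 K) (c : Ideal (𝓞 K) → ℂ) : Prop :=
  ∀ v : HeightOneSpectrum (𝓞 K), 2 * (4 * a ^ 3 + 27 * b ^ 2) ∉ v.asIdeal →
    n ∉ v.asIdeal ∧ c v.asIdeal = (Ideal.absNorm v.asIdeal : ℂ) - points a b v

/-- The curve `E : y² = x³ + a x + b` over `F`. -/
def curve (F : Type) [Field F] [NumberField F] [Algebra K F] (a b : 𝓞 K) : WeierstrassCurve F :=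
  ⟨0, 0, 0, algebraMap K F a, algebraMap K F b⟩

/-- The `p`-primary part `Ш(E/F)[p^∞]` of the Tate-Shafarevich group. -/
abbrev ShaP {F : Type} [Field F] [NumberField F] (p : ℕ) (V : WeierstrassCurve F) : Type :=
  {s : Pool.Agent.TH841.NF.D.Sha V // ∃ i : ℕ, (p ^ i : ℕ) • s = 0}

/-- The admissible places: `v ∤ 2p(4a³ + 27b²)`, `N(v) ≡ 1 mod p`, and `#E(𝓞/v)` (with the point at infinity) is prime
to `p`. -/
def Admissible (p : ℕ) (a b : 𝓞 K) (v : HeightOneSpectrum (𝓞 K)) : Prop :=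
  2 * p * (4 * a ^ 3 + 27 * b ^ 2) ∉ v.asIdeal ∧ Ideal.absNorm v.asIdeal ≡ 1 [MOD p] ∧
    ¬ p ∣ points a b v + 1

/-- `χ` is a character of `K` of `p`-power order and of conductor `∏_{v ∈ T} v`, as a function on `𝓞` (`K` has class
number one): a primitive character modulo the product of the `v ∈ T`, trivial on the units, and zero on the `x` which
are not prime to the conductor. -/
structure IsCharacter (p : ℕ) (T : Finset (HeightOneSpectrum (𝓞 K))) (χ : 𝓞 K → ℂ) : Prop where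
  one : χ 1 = 1
  mul : ∀ x y, χ (x * y) = χ x * χ y
  zero : ∀ x, χ x = 0 ↔ ∃ v ∈ T, x ∈ v.asIdeal
  periodic : ∀ x y, (∀ v ∈ T, x - y ∈ v.asIdeal) → χ x = χ y
  units : ∀ u, IsUnit u → χ u = 1
  primitive : ∀ v ∈ T, ∃ x, (∀ v' ∈ T, v' ≠ v → x - 1 ∈ v'.asIdeal) ∧ χ x ≠ 0 ∧ χ x ≠ 1
  order : ∃ k : ℕ, ∀ x, χ x ≠ 0 → χ x ^ p ^ k = 1

open Classical in
/-- The numbers `a_v` of `E`: `N(v) + 1 - #E(𝓞/v)` for `v ∤ 2(4a³ + 27b²)`, and the eigenvalues of `f` for the others. -/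
noncomputable def coeff (a b : 𝓞 K) (c : Ideal (𝓞 K) → ℂ) (v : HeightOneSpectrum (𝓞 K)) : ℂ :=
  if 2 * (4 * a ^ 3 + 27 * b ^ 2) ∈ v.asIdeal then c v.asIdeal
  else (Ideal.absNorm v.asIdeal : ℂ) - points a b v

/-- `χ(v)` is the value of `χ` at a generator of `v`. -/
noncomputable def at' (χ : 𝓞 K → ℂ) (v : HeightOneSpectrum (𝓞 K)) [IsPrincipalIdealRing (𝓞 K)] : ℂ :=
  χ (Submodule.IsPrincipal.generator v.asIdeal)

variable [IsPrincipalIdealRing (𝓞 K)]

open Classical in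
/-- The Euler factor `(1 - a_v χ(v) N(v)^(-s) + χ(v)² N(v)^(1-2s))⁻¹` of `L(E ⊗ χ, s)` at `v`, without the last term if
`v` divides the level. -/
noncomputable def factor (a b n : 𝓞 K) (c : Ideal (𝓞 K) → ℂ) (χ : 𝓞 K → ℂ) (s : ℂ)
    (v : HeightOneSpectrum (𝓞 K)) : ℂ :=
  (1 - coeff a b c v * at' χ v * (Ideal.absNorm v.asIdeal : ℂ) ^ (-s) +
    (if n ∈ v.asIdeal then 0 else at' χ v ^ 2 * (Ideal.absNorm v.asIdeal : ℂ) ^ (1 - 2 * s)))⁻¹

/-- `G` is the `L`-function of `E ⊗ χ`, continued to an entire function. -/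
def IsLFunction (a b n : 𝓞 K) (c : Ideal (𝓞 K) → ℂ) (χ : 𝓞 K → ℂ) (G : ℂ → ℂ) : Prop :=
  Differentiable ℂ G ∧ ∀ s : ℂ, 2 < s.re → HasProd (factor a b n c χ s) (G s)

section extension

variable (F : Type) [Field F] [NumberField F] [Algebra K F]

/-- The places `u` of `F` above `v`. -/
def Above (v : HeightOneSpectrum (𝓞 K)) : Type :=
  {u : HeightOneSpectrum (𝓞 F) // u.asIdeal.comap (algebraMap (𝓞 K) (𝓞 F)) = v.asIdeal}

omit [IsPrincipalIdealRing (𝓞 K)] in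
/-- `F/K` is a finite Galois extension of `p`-power degree, unramified outside of the admissible places of `K`, and the
places `v ∣ 2p(4a³ + 27b²)` split completely in `F` (there is an embedding of `F` in `K_v`). -/
structure IsPExtension (p : ℕ) (a b : 𝓞 K) : Prop where
  galois : IsGalois K F
  degree : ∃ k : ℕ, Module.finrank K F = p ^ k
  split : ∀ v : HeightOneSpectrum (𝓞 K), 2 * p * (4 * a ^ 3 + 27 * b ^ 2) ∈ v.asIdeal →
    Nonempty (F →ₐ[K] v.adicCompletion K)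
  unramified : ∀ v : HeightOneSpectrum (𝓞 K), 2 * p * (4 * a ^ 3 + 27 * b ^ 2) ∉ v.asIdeal →
    ¬ Admissible p a b v → ∀ u : Above F v, ∀ x : K,
      u.1.valuation F (algebraMap K F x) = v.valuation K x

omit [IsPrincipalIdealRing (𝓞 K)] in
open Classical in
/-- The Euler factor of `L(E/F, s)` at a place `u` of `F` of norm `Q = N(v)^f` above `v`, unramified over `v` or with good
reduction: with `(1 - α N(v)^(-s)) (1 - β N(v)^(-s))` the polynomial of `E` at `v` it is `((1 - α^f Q^(-s)) (1 - β^f Q^(-s)))⁻¹`, as the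
Frobenius element of `u` is the power `f` of that of `v`. -/
noncomputable def factorAbove (a b n : 𝓞 K) (c : Ideal (𝓞 K) → ℂ) (v : HeightOneSpectrum (𝓞 K))
    (Q : ℕ) (s : ℂ) : ℂ :=
  if n ∈ v.asIdeal then (1 - coeff a b c v ^ (Nat.log (Ideal.absNorm v.asIdeal) Q) *
    (Q : ℂ) ^ (-s))⁻¹
  else (1 - lucas (coeff a b c v) (Ideal.absNorm v.asIdeal)
    (Nat.log (Ideal.absNorm v.asIdeal) Q) * (Q : ℂ) ^ (-s) + (Q : ℂ) ^ (1 - 2 * s))⁻¹

omit [IsPrincipalIdealRing (𝓞 K)] in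
/-- `G` is `L(E/F, s)`, continued to an entire function: for `Re s > 2` it is the product, over the places `v` of `K`, of the
products of the Euler factors of `E/F` at the places above `v`. -/
def IsLFunctionOver (a b n : 𝓞 K) (c : Ideal (𝓞 K) → ℂ) (G : ℂ → ℂ) : Prop :=
  Differentiable ℂ G ∧ ∀ s : ℂ, 2 < s.re →
    HasProd (fun v : HeightOneSpectrum (𝓞 K) =>
      ∏ᶠ u : Above F v, factorAbove a b n c v (Ideal.absNorm u.1.asIdeal) s) (G s)

end extension

section group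

variable {𝒢 : Type} [CommGroup 𝒢]

omit [IsPrincipalIdealRing (𝓞 K)] in
/-- `𝒢` is a group of characters `χ_g` of `K` of exponent `p^e`, of conductors `∏_{v ∈ T_g} v` which are products of
different places, admissible for all the curves `E_i : y² = x³ + a_i x + b_i`: the product `χ_g χ_h` is the
primitive character `χ_(gh)`. -/
structure IsCharacterGroup (p : ℕ) {m : ℕ} (a b : Fin m → 𝓞 K) (e : ℕ)
    (T : 𝒢 → Finset (HeightOneSpectrum (𝓞 K))) (χ : 𝒢 → 𝓞 K → ℂ) : Prop where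
  character : ∀ g, IsCharacter p (T g) (χ g)
  admissible : ∀ g, ∀ v ∈ T g, ∀ i, Admissible p (a i) (b i) v
  injective : Function.Injective χ
  product : ∀ g h x, χ g x ≠ 0 → χ h x ≠ 0 → χ (g * h) x = χ g x * χ h x
  exponent : ∀ g : 𝒢, g ^ p ^ e = 1

/-- `F` is the class field of the finite group `𝓕` of characters `χ_g`: the order of `𝓕` is the degree of `F`, and
the decomposition law holds: if `f_v` is the number of the different values `χ_g(v) ≠ 0`, `g ∈ 𝓕`, then the places of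
`F` above `v` have norm `N(v)^(f_v)`, and their number is `1/f_v` times the number of the characters `χ_g`, `g ∈ 𝓕`,
unramified at `v`. -/
structure IsClassField (F : Type) [Field F] [NumberField F] [Algebra K F] (χ : 𝒢 → 𝓞 K → ℂ)
    (𝓕 : Subgroup 𝒢) : Prop where
  order : Nat.card 𝓕 = Module.finrank K F
  norm : ∀ (v : HeightOneSpectrum (𝓞 K)) (u : Above F v),
    Ideal.absNorm u.1.asIdeal =
      Ideal.absNorm v.asIdeal ^ Nat.card {z : ℂ // z ≠ 0 ∧ ∃ g ∈ 𝓕, at' (χ g) v = z}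
  number : ∀ v : HeightOneSpectrum (𝓞 K),
    Nat.card (Above F v) * Nat.card {z : ℂ // z ≠ 0 ∧ ∃ g ∈ 𝓕, at' (χ g) v = z} =
      Nat.card {g : 𝒢 // g ∈ 𝓕 ∧ at' (χ g) v ≠ 0}

end group

/-- Let `z = L(E/K, 1)` and let `χ` be a character of conductor `∏_{v ∈ T} v`.  The function `L(E ⊗ χ, s)` is entire, its
value at `s = 1` is not zero, and `k τ L(E ⊗ χ, 1) = x z` with an integer `k` prime to `p`, an algebraic integer `τ` with
`|τ|² = N(cond χ)`, and an algebraic integer `x` prime to `p`. -/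
def PPart (p : ℕ) (a b n : 𝓞 K) (c : Ideal (𝓞 K) → ℂ) (z : ℂ)
    (T : Finset (HeightOneSpectrum (𝓞 K))) (χ : 𝓞 K → ℂ) : Prop :=
  ∃ (G : ℂ → ℂ) (τ x : integralClosure ℤ ℂ) (k : ℤ), IsLFunction a b n c χ G ∧ G 1 ≠ 0 ∧
    ¬ (p : ℤ) ∣ k ∧
    ‖(τ : ℂ)‖ ^ 2 = ∏ v ∈ T, (Ideal.absNorm v.asIdeal : ℝ) ∧ IsCoprime x p ∧ k * τ * G 1 = x * z

/-- Let `z = L(E/K, 1)` and let `F` be the class field of the finite group `𝓕` of characters `χ_g` of conductors
`∏_{v ∈ T_g} v`.  The function `L(E/F, s)` is entire, its value at `s = 1` is not zero, and `k τ L(E/F, 1) = x z^[F:K]`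
with an integer `k` prime to `p`, an algebraic integer `τ` for which `|τ|²` is the product of the norms of the conductors
(that is, the norm of the discriminant of `F/K`), and an algebraic integer `x` prime to `p`. -/
def PPartOver (p : ℕ) {𝒢 : Type} [CommGroup 𝒢] (F : Type) [Field F] [NumberField F] [Algebra K F]
    (a b n : 𝓞 K) (c : Ideal (𝓞 K) → ℂ) (z : ℂ) (T : 𝒢 → Finset (HeightOneSpectrum (𝓞 K)))
    (𝓕 : Subgroup 𝒢) : Prop :=
  ∃ (G : ℂ → ℂ) (τ x : integralClosure ℤ ℂ) (k : ℤ), IsLFunctionOver F a b n c G ∧ G 1 ≠ 0 ∧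
    ¬ (p : ℤ) ∣ k ∧ ‖(τ : ℂ)‖ ^ 2 = ∏ᶠ g : 𝓕, ∏ v ∈ T g, (Ideal.absNorm v.asIdeal : ℝ) ∧
    IsCoprime x p ∧ k * τ * G 1 = x * z ^ Module.finrank K F

/-- For the class field `F` of the finite group `𝓕` of characters: the statement `PPartOver` on `L(E/F, 1)` holds, `E(F)` is
finite of order prime to `p`, `Ш(E/F)[p^∞]` is finite, its order is divisible by that of `Ш(E/K)[p^∞]` and divides the
power of that with the exponent `[F:K]`. -/
def Good (p : ℕ) {𝒢 : Type} [CommGroup 𝒢] (F : Type) [Field F] [NumberField F] [Algebra K F]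
    (a b n : 𝓞 K) (c : Ideal (𝓞 K) → ℂ) (z : ℂ) (T : 𝒢 → Finset (HeightOneSpectrum (𝓞 K)))
    (𝓕 : Subgroup 𝒢) : Prop :=
  PPartOver p F a b n c z T 𝓕 ∧ Finite (curve F a b).toAffine.Point ∧
    ¬ p ∣ Nat.card (curve F a b).toAffine.Point ∧ Finite (ShaP p (curve F a b)) ∧
    Nat.card (ShaP p (curve K a b)) ∣ Nat.card (ShaP p (curve F a b)) ∧
    Nat.card (ShaP p (curve F a b)) ∣ Nat.card (ShaP p (curve K a b)) ^ Module.finrank K F

section tower

variable {𝒢 𝓛 : Type} [CommGroup 𝒢] [Field 𝓛] [Algebra K 𝓛]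

/-- For a homomorphism `κ` from a group `𝒮` (of characters `χ_g` of `K`) to the group of the characters of `Gal(𝓛/K)` and for a
subgroup `𝓕` of `𝒮`: the field of the elements of `𝓛` fixed by the `σ` with `κ_g(σ) = 1` for all `g ∈ 𝓕`. -/
noncomputable def ClassField {𝒮 : Type} [CommGroup 𝒮] (κ : 𝒮 →* ((𝓛 ≃ₐ[K] 𝓛) →* ℂˣ))
    (𝓕 : Subgroup 𝒮) : IntermediateField K 𝓛 :=
  IntermediateField.fixedField
    { carrier := {σ : 𝓛 ≃ₐ[K] 𝓛 | ∀ g ∈ 𝓕, κ g σ = 1}
      one_mem' := fun g _ => map_one _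
      mul_mem' := fun {σ τ} hσ hτ g hg => by rw [map_mul, hσ g hg, hτ g hg, one_mul]
      inv_mem' := fun {σ} hσ g hg => by rw [map_inv, hσ g hg, inv_one] }

/-- `𝒮` is the group of the `g ∈ 𝒢` for which `χ_g(v) = 1` for the places `v ∣ 2p(4a_i³ + 27b_i²)`; `𝓛` is the field of all these
characters, and `κ` sends `g` to the character `χ_g` as a character of `Gal(𝓛/K)`: that is, for all finite subgroups `𝓕`
of `𝒮`, the field of `𝓕` is the class field of `𝓕`. -/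
structure IsTower (p : ℕ) {m : ℕ} (a b : Fin m → 𝓞 K) (χ : 𝒢 → 𝓞 K → ℂ) (𝒮 : Subgroup 𝒢)
    (κ : 𝒮 →* ((𝓛 ≃ₐ[K] 𝓛) →* ℂˣ)) : Prop where
  mem : ∀ g, g ∈ 𝒮 ↔ ∀ (i : Fin m) (v : HeightOneSpectrum (𝓞 K)),
    2 * p * (4 * a i ^ 3 + 27 * b i ^ 2) ∈ v.asIdeal → at' (χ g) v = 1
  galois : IsGalois K 𝓛
  field : ∀ 𝓕 : Subgroup 𝒮, Finite 𝓕 → ∃ _ : NumberField (ClassField κ 𝓕),
    IsClassField (ClassField κ 𝓕) χ (𝓕.map 𝒮.subtype) ∧
      ∀ i, IsPExtension (ClassField κ 𝓕) p (a i) (b i)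

/-- `ℋ` is in `𝒮`; for all `g ∈ ℋ` the statement `PPart` on `L(E_i ⊗ χ_g, 1)` holds; and for all the finite subgroups of `ℋ`
the statement `Good` holds for the class field of the subgroup. -/
def Exact (p : ℕ) {m : ℕ} (a b n : Fin m → 𝓞 K) (c : Fin m → Ideal (𝓞 K) → ℂ) (z : Fin m → ℂ)
    (T : 𝒢 → Finset (HeightOneSpectrum (𝓞 K))) (χ : 𝒢 → 𝓞 K → ℂ) (𝒮 : Subgroup 𝒢)
    (κ : 𝒮 →* ((𝓛 ≃ₐ[K] 𝓛) →* ℂˣ)) (ℋ : Subgroup 𝒢) : Prop :=
  ℋ ≤ 𝒮 ∧ (∀ g ∈ ℋ, ∀ i, PPart p (a i) (b i) (n i) (c i) (z i) (T g) (χ g)) ∧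
  ∀ (𝓕 : Subgroup 𝒮) [NumberField (ClassField κ 𝓕)], 𝓕.map 𝒮.subtype ≤ ℋ → Finite 𝓕 →
    ∀ i, Good p (ClassField κ 𝓕) (a i) (b i) (n i) (c i) (z i) T (𝓕.map 𝒮.subtype)

end tower

end field

/-- Let `K` be an imaginary quadratic field of class number one, `p` a prime number, `E_i : y² = x³ + a_i x + b_i`,
`i = 1, …, m`, elliptic curves over `K` with the Bianchi newforms `f_i`, and suppose that `z_i = L(E_i/K, 1) ≠ 0`, that
`E_i(K)` is finite of order prime to `p`, and that `Ш(E_i/K)[p^∞]` is finite.  For all `e` and `d` there is a function `B`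
with the following properties.  Let `𝒢` be a group, finite or infinite, of characters of `K` of exponent `p^e` whose
conductors are products of different admissible places, `𝒮` its subgroup of the characters with `χ(v) = 1` for the
`v ∣ 2p(4a_i³ + 27b_i²)`, `𝓛` the field of the characters in `𝒮`, and let `Δ` be a group of at most `d` automorphisms of
`𝒢`.
(1) For every sequence `g_0, g_1, …` in `𝒢` there are nonempty sets `S_k ⊆ [B(k), B(k + 1))` such that the products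
`∏_{j ∈ S_k} g_j` are in a `Δ`-stable subgroup `ℋ` of `𝒢` with the property `Exact`.
(2) If `𝒢` is infinite it has an infinite `Δ`-stable subgroup `ℋ` with this property.
(3) If `𝒢` has more than `p^(e B(t))` elements it has a `Δ`-stable subgroup `ℋ` of at least `t` elements with this
property.
(4) There are at most `2^B(1)` elements `k` of `𝒢` such that for every `g ∈ 𝒢` and one of these `k` the cyclic group
generated by `gk` has the property `Exact`.  So, if `𝒢` is finite, this is true for at least `2^(-B(1)) #𝒢` of the cyclic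
groups `⟨χ⟩`, `χ ∈ 𝒢`. -/
theorem result (K : Type) [Field K] [NumberField K] [IsPrincipalIdealRing (𝓞 K)] (σ : K →+* ℂ)
    (δ : K) (hK : IsFieldData K σ δ) {p : ℕ} (hp : p.Prime) {m : ℕ}
    (a b n : Fin m → 𝓞 K)
    (hΔ : ∀ i, 4 * a i ^ 3 + 27 * b i ^ 2 ≠ 0) (c : Fin m → Ideal (𝓞 K) → ℂ)
    (hf : ∀ i, IsNewform σ δ (n i) (c i)) (hE : ∀ i, IsNewformOf (a i) (b i) (n i) (c i))
    (z : Fin m → ℂ)
    (hL : ∀ i, ∃ G : ℂ → ℂ, IsLFunction (a i) (b i) (n i) (c i) (fun _ => 1) G ∧ G 1 = z i)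
    (hz : ∀ i, z i ≠ 0)
    (hS : ∀ i, Finite (curve K (a i) (b i)).toAffine.Point ∧
      ¬ p ∣ Nat.card (curve K (a i) (b i)).toAffine.Point ∧ Finite (ShaP p (curve K (a i) (b i))))
    (e d : ℕ) :
    ∃ B : ℕ → ℕ, ∀ (𝒢 : Type) [CommGroup 𝒢]
      (T : 𝒢 → Finset (HeightOneSpectrum (𝓞 K)))
      (χ : 𝒢 → 𝓞 K → ℂ), IsCharacterGroup p a b e T χ →
      ∀ (𝒮 : Subgroup 𝒢) (𝓛 : Type) [Field 𝓛] [Algebra K 𝓛] (κ : 𝒮 →* ((𝓛 ≃ₐ[K] 𝓛) →* ℂˣ)),
      IsTower p a b χ 𝒮 κ →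
      ∀ Δ : Subgroup (MulAut 𝒢), Finite Δ → Nat.card Δ ≤ d →
      (∀ g : ℕ → 𝒢, ∃ S : ℕ → Finset ℕ,
        (∀ k, (S k).Nonempty ∧ ∀ j ∈ S k, B k ≤ j ∧ j < B (k + 1)) ∧
        ∃ ℋ : Subgroup 𝒢, (∀ k, ∏ j ∈ S k, g j ∈ ℋ) ∧ (∀ s ∈ Δ, ∀ x ∈ ℋ, s x ∈ ℋ) ∧
          Exact p a b n c z T χ 𝒮 κ ℋ) ∧
      (Infinite 𝒢 → ∃ ℋ : Subgroup 𝒢, Infinite ℋ ∧ (∀ s ∈ Δ, ∀ x ∈ ℋ, s x ∈ ℋ) ∧
        Exact p a b n c z T χ 𝒮 κ ℋ) ∧
      (∀ t : ℕ, p ^ (e * B t) < Nat.card 𝒢 → ∃ ℋ : Subgroup 𝒢, t ≤ Nat.card ℋ ∧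
        (∀ s ∈ Δ, ∀ x ∈ ℋ, s x ∈ ℋ) ∧ Exact p a b n c z T χ 𝒮 κ ℋ) ∧
      ∃ 𝒦 : Finset 𝒢, 𝒦.card ≤ 2 ^ B 1 ∧ ∀ g : 𝒢, ∃ k ∈ 𝒦,
        Exact p a b n c z T χ 𝒮 κ (Subgroup.zpowers (g * k)) := by
  classical
  have h : K4H55.BI.IQ K σ δ := ⟨hK.quadratic, hK.imaginary, inferInstance, hK.different⟩
  have hf' : ∀ i, K4H55.BI.BF σ δ (n i) (c i) := fun i => ⟨(hf i).level, (hf i).zero, (hf i).one,
    (hf i).bound, (hf i).good, (hf i).bad, (hf i).invariant, (hf i).fricke⟩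
  have hcoeff : ∀ i, ∀ v : HeightOneSpectrum (𝓞 K),
      coeff (a i) (b i) (c i) v = c i v.asIdeal := by
    intro i v
    unfold coeff
    split_ifs with h1
    · rfl
    · exact (hE i v h1).2.symm
  have hluc : ∀ (t q : ℂ) (j : ℕ), lucas t q j = K4H55.CX.luc t q j := by
    intro t q j
    induction j using Nat.twoStepInduction with
    | zero => rfl
    | one => rfl
    | more j h1 h2 => rw [lucas, K4H55.CX.luc, h1, h2]
  have hadm : ∀ i, ∀ v, Admissible p (a i) (b i) v → H92P.Adp p (n i) (c i) v := by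
    intro i v hv
    have hd : 2 * (4 * a i ^ 3 + 27 * b i ^ 2) ∉ v.asIdeal := fun h2 => hv.1 (by
      have e : 2 * p * (4 * a i ^ 3 + 27 * b i ^ 2) = 2 * (4 * a i ^ 3 + 27 * b i ^ 2) * p := by
        ring
      rw [e]
      exact v.asIdeal.mul_mem_right _ h2)
    have h2 : (2 : 𝓞 K) ∉ v.asIdeal := fun h2 => hd (v.asIdeal.mul_mem_right _ h2)
    refine ⟨h2, (hE i v hd).1, (Ideal.absNorm v.asIdeal : ℤ) - points (a i) (b i) v, ?_, ?_⟩
    · rw [(hE i v hd).2]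
      push_cast
      ring
    · intro hdvd
      apply hv.2.2
      have h3 : (p : ℤ) ∣ (Ideal.absNorm v.asIdeal : ℤ) - 1 :=
        (Nat.modEq_iff_dvd.1 hv.2.1.symm)
      have h4 : (p : ℤ) ∣ ((points (a i) (b i) v + 1 : ℕ) : ℤ) := by
        have h5 := dvd_sub h3 hdvd
        have e : (Ideal.absNorm v.asIdeal : ℤ) - 1 -
            ((Ideal.absNorm v.asIdeal : ℤ) - points (a i) (b i) v - 2) =
            ((points (a i) (b i) v + 1 : ℕ) : ℤ) := by
          push_cast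
          ring
        rwa [e] at h5
      exact_mod_cast h4
  have hfac : ∀ i, ∀ (χ : 𝓞 K → ℂ) (s : ℂ),
      factor (a i) (b i) (n i) (c i) χ s = K4H55.CX.efx (n i) (c i) χ s := by
    intro i χ s
    funext v
    unfold factor K4H55.CX.efx
    rw [hcoeff]
    rfl
  have hch : ∀ (T : Finset (HeightOneSpectrum (𝓞 K))) (χ : 𝓞 K → ℂ), IsCharacter p T χ →
      H92P.CP T χ := fun T χ h1 =>
    ⟨h1.one, h1.mul, h1.zero, h1.periodic, h1.units, h1.primitive, by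
      obtain ⟨k, hk⟩ := h1.order
      exact ⟨p ^ k, pow_pos hp.pos k, hk⟩⟩
  have hz0 : ∀ i, K4H55.BI.fv (K4H55.BI.ordK h) (fun x => c i (Ideal.span {x})) 0 ≠ 0 := by
    intro i
    obtain ⟨G, ⟨g1, g2⟩, g3⟩ := hL i
    exact H92.fv_ne h (hf' i) g1 (fun s hs => by rw [← hfac]; exact g2 s hs)
      (by rw [g3]; exact hz i)
  -- the central values
  choose ω hω' hω using fun i => (hf i).cyclic
  choose z₀ hz₀' hz₀ using fun i => K4H55.BK.exists_z0 h (hf' i)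
  have hzz : ∀ i, (2 * Real.pi / ‖σ δ‖) ^ 2 / (Nat.card (𝓞 K)ˣ : ℂ) * z₀ i = z i := by
    intro i
    obtain ⟨G, ⟨g1, g2⟩, g3⟩ := hL i
    obtain ⟨G', g4, g5, g6⟩ := K4H55.CX.chr_one h (hf' i) (hz₀ i)
    have h1 := H92.eq_of_prod g1 g4 (fun s hs => by rw [← hfac]; exact g2 s hs) g5
    rw [← g3, h1, g6]
  -- the values
  have hnv : ∀ (i : Fin m) (T : Finset (HeightOneSpectrum (𝓞 K))) (χ : 𝓞 K → ℂ), H92P.CP T χ →
      (∀ v ∈ T, ∀ i, Admissible p (a i) (b i) v) → H92P.Cgp p h (c i) T χ →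
      PPart p (a i) (b i) (n i) (c i) (z i) T χ := by
    intro i T χ hχ hT hx
    obtain ⟨G, τ, X, k, g1, g2, g3, g4, g5, g6⟩ := H92P.cg_valp h (hf' i) hχ
      (fun v hv => hadm i v (hT v hv i)) (hz₀ i) hx
    rw [hzz] at g6
    refine ⟨G, τ, X, k, ⟨g1, fun s hs => by rw [hfac]; exact g2 s hs⟩, ?_, g3, g4, g5, g6⟩
    refine H92P.ne_of_unitp hp (m := 1) (τ := τ) (k := k) g5 (hz i) ?_
    rw [pow_one]
    exact g6
  -- the `L`-function over `F`
  have hover : ∀ (e : ℕ) (𝒢 : Type) [CommGroup 𝒢] (T : 𝒢 → Finset (HeightOneSpectrum (𝓞 K)))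
      (χ : 𝒢 → 𝓞 K → ℂ), IsCharacterGroup p a b e T χ → ∀ (i : Fin m)
      (F : Type) [Field F] [NumberField F] [Algebra K F] (𝓕 : Subgroup 𝒢), Finite 𝓕 →
      IsGalois K F → (∀ g ∈ 𝓕, PPart p (a i) (b i) (n i) (c i) (z i) (T g) (χ g)) →
      IsClassField F χ 𝓕 → PPartOver p F (a i) (b i) (n i) (c i) (z i) T 𝓕 := by
    intro e 𝒢 _ T χ hχ i F _ _ _ 𝓕 hfin hG hne hcf
    have hCG : H92P.CGp T χ := ⟨fun g => hch _ _ (hχ.character g), hχ.product⟩
    -- the L-function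
    have : Fintype 𝓕 := Fintype.ofFinite 𝓕
    choose G τ X k g0 g3 g4 g5 g6 g7 using fun g : 𝓕 => hne g g.2
    have g1 := fun g => (g0 g).1
    have g2 : ∀ (g : 𝓕) (s : ℂ), 2 < s.re →
        HasProd (K4H55.CX.efx (n i) (c i) (χ g) s) (G g s) := by
      intro g s hs
      rw [← hfac]
      exact (g0 g).2 s hs
    have hCF : H92P.CFp (fun g : 𝓕 => T g) (fun g : 𝓕 => χ g) :=
      ⟨fun g => hCG.ch g, fun g g' x h4 h5 => hCG.mul g g' x h4 h5⟩
    have hord : ∀ v : HeightOneSpectrum (𝓞 K),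
        Nat.card {z : ℂ // z ≠ 0 ∧ ∃ g ∈ 𝓕, at' (χ g) v = z} =
          K4H55.CX.ord (fun g : 𝓕 => χ g) (K4H55.BI.gen v) := by
      intro v
      unfold K4H55.CX.ord
      refine Nat.card_congr (Equiv.subtypeEquivRight fun z => ?_)
      constructor
      · rintro ⟨h4, g, hg, h5⟩
        exact ⟨h4, ⟨g, hg⟩, h5⟩
      · rintro ⟨h4, g, h5⟩
        exact ⟨h4, g, g.2, h5⟩
    have hnum : ∀ v : HeightOneSpectrum (𝓞 K),
        Nat.card {g : 𝒢 // g ∈ 𝓕 ∧ at' (χ g) v ≠ 0} =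
          Nat.card {g : 𝓕 // χ g (K4H55.BI.gen v) ≠ 0} := by
      intro v
      refine Nat.card_congr ⟨fun g => ⟨⟨g.1, g.2.1⟩, g.2.2⟩, fun g => ⟨g.1.1, g.1.2, g.2⟩,
        fun g => rfl, fun g => rfl⟩
    have hlaw : K4H55.CX.Law F (fun g : 𝓕 => χ g) := by
      refine ⟨fun v u hu => ?_, fun v => ?_⟩
      · rw [← hord]
        exact hcf.norm v ⟨u, hu⟩
      · rw [← hord, ← hnum]
        exact hcf.number v
    refine ⟨fun s => ∏ g, G g s, ∏ g, τ g, ∏ g, X g, ∏ g, k g,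
      ⟨Differentiable.fun_finsetProd fun g _ => g1 g, fun s hs => ?_⟩,
      Finset.prod_ne_zero_iff.2 fun g _ => g3 g, ?_, ?_, ?_, ?_⟩
    rotate_left
    · have hpZ : Prime (p : ℤ) := Nat.prime_iff_prime_int.1 hp
      intro hd
      obtain ⟨g, -, hg⟩ := (hpZ.dvd_finsetProd_iff _).1 hd
      exact g4 g hg
    · rw [finprod_eq_prod_of_fintype]
      have e : ((∏ g, τ g : integralClosure ℤ ℂ) : ℂ) = ∏ g, (τ g : ℂ) := by
        push_cast
        rfl
      rw [e, norm_prod, ← Finset.prod_pow]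
      exact Finset.prod_congr rfl fun g _ => g5 g
    · exact IsCoprime.prod_left fun g _ => g6 g
    · have e1 : ((∏ g, τ g : integralClosure ℤ ℂ) : ℂ) = ∏ g, (τ g : ℂ) := by
        push_cast
        rfl
      have e2 : ((∏ g, X g : integralClosure ℤ ℂ) : ℂ) = ∏ g, (X g : ℂ) := by
        push_cast
        rfl
      have e3 : ((∏ g, k g : ℤ) : ℂ) = ∏ g, (k g : ℂ) := by push_cast; rfl
      beta_reduce
      rw [e1, e2, e3, ← Finset.prod_mul_distrib, ← Finset.prod_mul_distrib,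
        Finset.prod_congr rfl fun g _ => g7 g, Finset.prod_mul_distrib, Finset.prod_const,
        Finset.card_univ, ← Nat.card_eq_fintype_card, hcf.order]
    have e1 : ∀ (v : HeightOneSpectrum (𝓞 K)) (Q : ℕ),
        factorAbove (a i) (b i) (n i) (c i) v Q s = K4H55.CX.facF (n i) (c i) v Q s := by
      intro v Q
      unfold factorAbove K4H55.CX.facF
      rw [hcoeff, hluc]
    have e2 : (fun v : HeightOneSpectrum (𝓞 K) =>
        ∏ᶠ u : Above F v, factorAbove (a i) (b i) (n i) (c i) v (Ideal.absNorm u.1.asIdeal) s) =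
        fun v => ∏ g : 𝓕, K4H55.CX.efx (n i) (c i) (χ g) s v := by
      funext v
      simp only [e1]
      exact H92P.above_prod (n := n i) (c := c i) hCF hlaw v s
    rw [e2]
    exact hasProd_prod fun g _ => g2 g s hs
  -- the general case
  obtain ⟨B₁, hB₁⟩ := H92P.ramPp_all (p := p) (b := e) (d := d)
    (fun i => H92P.Adp p (n i) (c i)) (fun i T χ => H92P.Cgp p h (c i) T χ)
    (fun i => H92P.bia_congp hp h (hf' i) (hz0 i) (hω i) (hω' i) e d)
  choose w hw using fun i => H92.HB.card_sha hp (hS i).2.2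
  choose B₂ hB₂ using fun i => H92.HB.ramQ σ hK.quadratic
    hK.imaginary hp (hΔ i) (hS i).1 (hS i).2.1 (hS i).2.2 (hw i)
    e d
  obtain ⟨B₃, hB₃⟩ := H92.HB.ramG_all m B₂
  -- the bad places
  let Z : Set (HeightOneSpectrum (𝓞 K)) :=
    {v | ∃ i, 2 * p * (4 * a i ^ 3 + 27 * b i ^ 2) ∈ v.asIdeal}
  have hZ : Z.Finite := by
    have h1 : Z = ⋃ i, {v : HeightOneSpectrum (𝓞 K) |
        2 * p * (4 * a i ^ 3 + 27 * b i ^ 2) ∈ v.asIdeal} := by
      ext v
      simp only [Z, Set.mem_setOf_eq, Set.mem_iUnion]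
    rw [h1]
    refine Set.finite_iUnion fun i => ?_
    have h2 : (2 * p * (4 * a i ^ 3 + 27 * b i ^ 2) : 𝓞 K) ≠ 0 :=
      mul_ne_zero (mul_ne_zero two_ne_zero (Nat.cast_ne_zero.2 hp.ne_zero)) (hΔ i)
    have h3 : Ideal.span {(2 * p * (4 * a i ^ 3 + 27 * b i ^ 2) : 𝓞 K)} ≠ 0 := by
      rw [Ideal.zero_eq_bot, Ne, Ideal.span_singleton_eq_bot]
      exact h2
    refine (Ideal.finite_factors h3).subset fun v hv => ?_
    show v.asIdeal ∣ _
    rw [Ideal.dvd_span_singleton]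
    exact hv
  obtain ⟨N, hN⟩ := H92.HB.index_bound Z hZ (p ^ e) (pow_pos hp.pos e)
  obtain ⟨B₄, hB₄⟩ := H36.HB.idx N d
  let B : ℕ → ℕ := fun k => B₁ (B₃ (B₄ k))
  refine ⟨B, fun 𝒢 _ T χ hχ 𝒮 𝓛 _ _ κ hκ Δ hΔf hΔd => ?_⟩
  have hCG : H92P.CGp T χ := ⟨fun g => hch _ _ (hχ.character g), hχ.product⟩
  -- the automorphisms
  obtain ⟨τ, i0, hτ0, hτΔ, hττ⟩ : ∃ (τ : Fin d → 𝒢 →* 𝒢) (i0 : Fin d), (∀ x, τ i0 x = x) ∧
      (∀ s ∈ Δ, ∀ i, ∃ j, ∀ x, (s : 𝒢 ≃* 𝒢) (τ i x) = τ j x) ∧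
      ∀ i i', ∃ j, ∀ x, τ i (τ i' x) = τ j x := by
    have : Fintype Δ := Fintype.ofFinite Δ
    have hpos : 0 < Nat.card Δ := Nat.card_pos
    obtain ⟨f, hf⟩ : ∃ f : Fin d → Δ, Function.Surjective f := by
      have e1 : Δ ≃ Fin (Nat.card Δ) := Finite.equivFin Δ
      refine ⟨fun i => if hi : (i : ℕ) < Nat.card Δ then e1.symm ⟨i, hi⟩ else 1, fun s => ?_⟩
      refine ⟨⟨(e1 s : ℕ), lt_of_lt_of_le (e1 s).2 hΔd⟩, ?_⟩
      beta_reduce
      rw [dif_pos (e1 s).2]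
      exact e1.symm_apply_apply s
    obtain ⟨i0, hi0⟩ := hf 1
    refine ⟨fun i => ((f i : MulAut 𝒢) : 𝒢 ≃* 𝒢).toMonoidHom, i0, fun x => ?_,
      fun s hs i => ?_, fun i i' => ?_⟩
    · show (f i0 : MulAut 𝒢) x = x
      rw [hi0]
      rfl
    · obtain ⟨j, hj⟩ := hf (⟨s, hs⟩ * f i)
      refine ⟨j, fun x => ?_⟩
      show s ((f i : MulAut 𝒢) x) = (f j : MulAut 𝒢) x
      rw [hj]
      rfl
    · obtain ⟨j, hj⟩ := hf (f i * f i')
      refine ⟨j, fun x => ?_⟩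
      show (f i : MulAut 𝒢) ((f i' : MulAut 𝒢) x) = (f j : MulAut 𝒢) x
      rw [hj]
      rfl
  -- the tower
  have hcard𝓕 : ∀ 𝓕 : Subgroup 𝒮, Nat.card (𝓕.map 𝒮.subtype) = Nat.card 𝓕 := fun 𝓕 =>
    Nat.card_congr (Subgroup.equivMapOfInjective 𝓕 𝒮.subtype 𝒮.subtype_injective).symm.toEquiv
  have hT : ∀ i, H92.HB.Twr κ (a i) (b i) p e := fun i =>
    ⟨hκ.galois, fun x => Subtype.ext (hχ.exponent x), fun 𝓕 hfin => by
      obtain ⟨hnf, hcf, -⟩ := hκ.field 𝓕 hfin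
      rw [← hcard𝓕 𝓕]
      exact hcf.order.symm, fun 𝓕 hfin => by
      obtain ⟨hnf, -, hF⟩ := hκ.field 𝓕 hfin
      exact (hF i).split, fun 𝓕 hfin hnf' w hw => by
      obtain ⟨hnf, -, hF⟩ := hκ.field 𝓕 hfin
      by_cases h4 : Admissible p (a i) (b i) (w.under (𝓞 K))
      · exact Or.inl h4.2.2
      · exact Or.inr fun x => (hF i).unramified _ hw h4 ⟨w, rfl⟩ x⟩
  -- the values at the bad places
  have hgen : ∀ v ∈ Z, ∀ g, at' (χ g) v ≠ 0 := by
    intro v hv g h0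
    obtain ⟨i, hi⟩ := hv
    obtain ⟨v', hv', h1⟩ := ((hχ.character g).zero _).1 h0
    have h2 : v.asIdeal ≤ v'.asIdeal := by
      rw [← Submodule.IsPrincipal.span_singleton_generator v.asIdeal, Ideal.submodule_span_eq,
        Ideal.span_singleton_le_iff_mem]
      exact h1
    exact (hχ.admissible g v' hv' i).1 (h2 hi)
  obtain ⟨hi1, hi2⟩ := hN 𝒢 (fun g v => at' (χ g) v)
    (fun v hv g => hCG.root g (hχ.exponent g) (hgen v hv g))
    (fun v hv g g' => hχ.product g g' _ (hgen v hv g) (hgen v hv g')) 𝒮 (fun g => by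
      rw [hκ.mem]
      exact ⟨fun h1 v ⟨i, hi⟩ => h1 i v hi, fun h1 i v hi => h1 v ⟨i, hi⟩⟩)
  -- the theorem of Ramsey type
  have hram : H92.HB.RamG τ B fun ℋ =>
      ((∀ x ∈ ℋ, ∀ i, H92P.Cgp p h (c i) (T x) (χ x)) ∧
        ∀ i, ∀ H : Subgroup 𝒮, Finite H → H.map 𝒮.subtype ≤ ℋ →
          ∀ M, H92.HB.QQ κ (a i) (b i) p (w i) M H) ∧ ℋ ≤ 𝒮 := by
    refine H92.HB.RamG.and (L := fun k => B₁ (B₃ k)) (L' := B₄) ?_
      (H92.HB.RamG.and (L := B₁) (L' := B₃) ?_ ?_ ?_) ?_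
    · rintro H H' hH ⟨h1, h2⟩
      exact ⟨fun x hx => h1 x (hH hx), fun i K hK hK' => h2 i K hK (hK'.trans hH)⟩
    · exact fun H H' hH h1 x hx => h1 x (hH hx)
    · intro g
      exact hB₁ 𝒢 T χ hCG hχ.exponent (fun g v hv i => hadm i v (hχ.admissible g v hv i)) τ g
    · exact hB₃ 𝒢 d τ _ (fun i H H' hH h1 K hK hK' => h1 K hK (hK'.trans hH)) fun i =>
        hB₂ i 𝒢 hχ.exponent 𝒮 𝓛 κ (hT i) τ ⟨i0, hτ0⟩ hττ
    · exact fun g => hB₄ 𝒢 𝒮 hi1 hi2 τ g
  have hexact : ∀ ℋ : Subgroup 𝒢, (∀ x ∈ ℋ, ∀ i, H92P.Cgp p h (c i) (T x) (χ x)) →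
      (∀ i, ∀ H : Subgroup 𝒮, Finite H → H.map 𝒮.subtype ≤ ℋ →
          ∀ M, H92.HB.QQ κ (a i) (b i) p (w i) M H) → ℋ ≤ 𝒮 → Exact p a b n c z T χ 𝒮 κ ℋ := by
    intro ℋ h1 h2 h3
    have hpp : ∀ g ∈ ℋ, ∀ i, PPart p (a i) (b i) (n i) (c i) (z i) (T g) (χ g) := fun g hg i =>
      hnv i (T g) (χ g) (hCG.ch g) (hχ.admissible g) (h1 g hg i)
    refine ⟨h3, hpp, fun 𝓕 hnf h𝓕 hfin i => ?_⟩
    obtain ⟨hnf', hcf, hF⟩ := hκ.field 𝓕 hfin
    have hG := (hF i).galois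
    have hnfl : NumberField (H92.HB.fld κ 𝓕) := hnf
    obtain ⟨k, hk⟩ := (hF i).degree
    have hcd : Module.finrank K (ClassField κ 𝓕) = Nat.card 𝓕 := by
      rw [← hcard𝓕 𝓕]
      exact hcf.order.symm
    have hfin' : Finite (𝓕.map 𝒮.subtype) :=
      Finite.of_equiv _ (Subgroup.equivMapOfInjective 𝓕 𝒮.subtype 𝒮.subtype_injective).toEquiv
    obtain ⟨g1, g2, g3, g4, g5⟩ := H92.HB.finC (k := K) (F := ClassField κ 𝓕) hp
      (pow_pos hp.pos (w i * Nat.card 𝓕)) hk (hΔ i) (hS i).1 (hS i).2.1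
      fun M => h2 i 𝓕 hfin h𝓕 M
    refine ⟨hover e 𝒢 T χ hχ i (ClassField κ 𝓕) _ hfin' hG (fun g hg => hpp g (h𝓕 hg) i) hcf,
      g1, g2, g3, g4, ?_⟩
    have e1 : Nat.card (ShaP p (curve K (a i) (b i))) ^ Module.finrank K (ClassField κ 𝓕) =
        p ^ (w i * Nat.card 𝓕) := by
      rw [hcd, pow_mul]
      exact congrArg (· ^ Nat.card 𝓕) (hw i)
    rw [e1]
    exact g5
  have hmain : ∀ g : ℕ → 𝒢, ∃ S : ℕ → Finset ℕ,
      (∀ k, (S k).Nonempty ∧ S k ⊆ Finset.Ico (B k) (B (k + 1))) ∧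
      ∃ ℋ : Subgroup 𝒢, Subgroup.closure (Set.range fun k => ∏ j ∈ S k, g j) ≤ ℋ ∧
        (∀ s ∈ Δ, ∀ x ∈ ℋ, s x ∈ ℋ) ∧ Exact p a b n c z T χ 𝒮 κ ℋ := by
    intro g
    obtain ⟨S, hS1, ⟨hS2, hS3⟩, hS4⟩ := hram g
    exact ⟨S, hS1, H92.clo τ g S, H92.clo_le τ g S i0 hτ0,
      fun s hs x hx => H92.clo_stable τ g S s.toMonoidHom (hτΔ s hs) hx, hexact _ hS2 hS3 hS4⟩
  obtain ⟨φ, hφ1, hφ2⟩ := Pool.Agent.Y683.CG.sub_exists (e := p ^ e) (pow_pos hp.pos e) B
    (⊤ : Subgroup 𝒢) (fun g _ => hχ.exponent g)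
  obtain ⟨S, hS1, ℋ, hS2, hS3, hS4⟩ := hmain φ
  obtain ⟨-, h4, h5⟩ := hφ2 S hS1
  refine ⟨fun g => ?_, fun hinf => ⟨ℋ, ?_, hS3, hS4⟩,
    fun t ht => ⟨ℋ, ?_, hS3, hS4⟩, ?_⟩
  · obtain ⟨S, hS1, ℋ, hS2, hS3, hS4⟩ := hmain g
    refine ⟨S, fun k => ⟨(hS1 k).1, fun j hj => Finset.mem_Ico.1 ((hS1 k).2 hj)⟩, ℋ,
      fun k => hS2 (Subgroup.subset_closure ⟨k, rfl⟩), hS3, hS4⟩
  · have h6 := h4 (by
      have e1 := (Subgroup.topEquiv (G := 𝒢)).toEquiv
      exact e1.infinite_iff.2 hinf)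
    exact Infinite.of_injective _ (Subgroup.inclusion_injective hS2)
  · have h7 : 0 < Nat.card 𝒢 := lt_of_le_of_lt (Nat.zero_le _) ht
    have hfin : Finite 𝒢 := Nat.finite_of_card_ne_zero h7.ne'
    refine (h5 t ?_).trans (Nat.card_le_card_of_injective _ (Subgroup.inclusion_injective hS2))
    rw [Subgroup.card_top, ← pow_mul]
    exact ht
  · obtain ⟨𝒦, hK1, hK2⟩ := H92.syndetic (fun x : 𝒢 =>
      Exact p a b n c z T χ 𝒮 κ (Subgroup.zpowers x)) (B 1) (fun g => by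
        obtain ⟨S, hS1, ℋ, hS2, -, hS4⟩ := hmain g
        have hle : Subgroup.zpowers (∏ j ∈ S 0, g j) ≤ ℋ := by
          rw [Subgroup.zpowers_le]
          exact hS2 (Subgroup.subset_closure ⟨0, rfl⟩)
        refine ⟨S 0, (hS1 0).1, fun j hj => ?_, hle.trans hS4.1, fun x hx => hS4.2.1 x (hle hx),
          fun 𝓕 hnf h𝓕 hfin => hS4.2.2 𝓕 (h𝓕.trans hle) hfin⟩
        exact Finset.mem_range.2 (Finset.mem_Ico.1 ((hS1 0).2 hj)).2)
    exact ⟨𝒦, hK1, hK2⟩

end Pool.Agent.Results.MP_1a91b9_nt.BianchiPropagation
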