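import Mathlib
import Pool.Agent.H91.X12

/-!
# The 3-part of the formula of Birch and Swinnerton-Dyer for the cubic twists over `ℚ(√-3)`

`K` is the field of third roots of unity, `E_D : y² + D y = x³` (over `K` it is isomorphic to
`x³ + y³ = D`). We consider all cubefree `D` in the ring of integers that are prime to `3` and
different from `1` and `-1` modulo `3 √-3` and not units; only two of the eighteen residue classes of
the numbers prime to `3` modulo `3 √-3` are excluded. There is no condition on the number of the prime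
divisors or on their residues.

For each such `D`: the complete `L`-function, the period, the minimal equation, the Tamagawa numbers
and the torsion are determined, and the quotient `ρ` of the two sides of the formula (without the
order of the Tate-Shafarevich group) is integral at all places above `3`, and it is a unit there if
and only if `E_D(K)` is finite and `Ш(E_D/K)[3^∞] = 0`, if and only if a system of linear equations
whose coefficients are the cubic residue symbols `(π_k / π_i)`, `(ω / π_i)` has only the zero solution;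
in this case `L(E_D/K, 1) ≠ 0`.

We order all squarefree `D` prime to `3` by the norm. The proportion of those that are in the class
and have `E_D(K)` finite and `Ш(E_D/K)[3^∞] = 0` (so that `L(E_D/K, 1) ≠ 0`, and the `3`-part of the
formula of Birch and Swinnerton-Dyer is true) tends to `8/9 ∏_{i ≥ 0} (1 - 3^{-(2 i + 1)})`, which is
`0.5680...`: the majority of all.
-/

set_option autoImplicit false

namespace Pool.Agent.Results.MP_1a91b9_nt.CubicTwistsEveryFactor

open NumberField IsDedekindDomain WeierstrassCurve WithZero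
open Pool.Agent.TH841.NF.D (Sha)
open scoped Classical

variable {K : Type} [Field K] [NumberField K]

/-- The curve `E_D : y² + D y = x³`. -/
def curve (D : K) : WeierstrassCurve K := ⟨0, 0, D, 0, 0⟩

/-- `E_D(K)` is finite and the `3`-primary part of `Ш(E_D / K)` is trivial. -/
def FiniteAndTrivial (D : 𝓞 K) : Prop :=
  Finite (curve (D : K)).toAffine.Point ∧ ∀ (n : ℕ) (x : Sha (curve (D : K))), 3 ^ n • x = 0 → x = 0

/-- The order of the torsion subgroup of `E_D(K)`. -/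
noncomputable def torsionOrder (D : 𝓞 K) : ℕ :=
  Nat.card (AddCommGroup.torsion (curve (D : K)).toAffine.Point)

/-- The point has nonsingular reduction: it is the point at infinity, or one of the two partial
derivatives of the (integral) equation at the point is not in the maximal ideal. -/
def NonsingularReduction {L : Type} [Field L] (v : Valuation L ℤᵐ⁰) (W : WeierstrassCurve L) :
    W.toAffine.Point → Prop
  | .zero => True
  | .some x y _ => 1 ≤ v (2 * y + W.a₁ * x + W.a₃) ∨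
      1 ≤ v (3 * x ^ 2 + 2 * W.a₂ * x + W.a₄ - W.a₁ * y)

/-- The equation of `W` is minimal at every finite place, and `c v` is the Tamagawa number at `v`:
the index of the group of the points of nonsingular reduction. -/
def AreTamagawaNumbers (W : WeierstrassCurve K) (c : HeightOneSpectrum (𝓞 K) → ℕ) : Prop :=
  (∀ v : HeightOneSpectrum (𝓞 K),
    IsMinimal (v.adicCompletionIntegers K) (W.baseChange (v.adicCompletion K)) ∧
    ∃ H : AddSubgroup (W.baseChange (v.adicCompletion K)).toAffine.Point,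
      (∀ P, P ∈ H ↔ NonsingularReduction Valued.v (W.baseChange (v.adicCompletion K)) P) ∧
      H.index = c v) ∧
  {v | c v ≠ 1}.Finite

/-- The `3`-part of the formula of Birch and Swinnerton-Dyer for `E_D` over `K`: the torsion has
order `3` up to factors prime to `3`; `L(E_D / K, s)` has an entire continuation, not zero at `1` if
`E_D(K)` is finite and `Ш(E_D / K)[3^∞] = 0`; and
`L(E_D / K, 1) = ρ · (2 vol(ℂ / Λ)) ∏ c_v / (√|d_K| · #torsion²)`, where `Λ` is the lattice of the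
periods of `dx / (2 y + D)`, with a number `ρ` that is integral at all places above `3`, and a unit
there if and only if `E_D(K)` is finite and `Ш(E_D / K)[3^∞] = 0`. -/
def ThreePart (D : 𝓞 K) : Prop :=
  Finite (AddCommGroup.torsion (curve (D : K)).toAffine.Point) ∧ padicValNat 3 (torsionOrder D) = 1 ∧
  ∃ (Lf : ℂ → ℂ) (c : HeightOneSpectrum (𝓞 K) → ℕ),
    Differentiable ℂ Lf ∧
    (∀ s : ℂ, 3 / 2 < s.re →
      LSeriesSummable ((fun n : ℤ => (n : ℂ)) ∘ (curve (D : K)).LFunction) s ∧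
        Lf s = (curve (D : K)).LSeries s) ∧
    (FiniteAndTrivial D → Lf 1 ≠ 0) ∧
    AreTamagawaNumbers (curve (D : K)) c ∧
    ∀ σ : K →+* ℂ, (∃ Λ : PeriodPair, Λ.g₂ = 0 ∧ Λ.g₃ = -(σ D) ^ 2) ∧
      ∀ Λ : PeriodPair, Λ.g₂ = 0 → Λ.g₃ = -(σ D) ^ 2 → ∃ ρ : ℂ,
        Lf 1 = ρ * (((2 * |((starRingEnd ℂ) Λ.ω₁ * Λ.ω₂).im| : ℝ) : ℂ) * ((∏ᶠ w, c w : ℕ) : ℂ) /
          (((Real.sqrt |(discr K : ℝ)| : ℝ) : ℂ) * (torsionOrder D : ℂ) ^ 2)) ∧
        ∀ (Γ : Type) [LinearOrderedCommGroupWithZero Γ] (v : Valuation ℂ Γ), v 3 < 1 →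
          v ρ ≤ 1 ∧ (v ρ = 1 ↔ FiniteAndTrivial D)

/-- `D` is cubefree, prime to `3`, different from `1` and `-1` modulo `3 √-3`, and not a unit. -/
def InClass (D : 𝓞 K) : Prop :=
  IsCoprime D 3 ∧ (∀ t : 𝓞 K, t ^ 2 = -3 → ¬ 3 * t ∣ D - 1 ∧ ¬ 3 * t ∣ D + 1) ∧
    (∀ p : 𝓞 K, p ^ 3 ∣ D → IsUnit p) ∧ ¬ IsUnit D

/-- `D = ± ω ^ c ∏ π_i ^ e_i` with different primes `π_i = 1` modulo `3` and `e_i ≠ 0`; the cubic
residue symbols are `(π_k / π_i) = ω ^ χ i k` and `(ω / π_i) = ω ^ τ i`. -/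
structure IsFactorization (ω D : 𝓞 K) (c : ZMod 3) (n : ℕ) (π : Fin n → 𝓞 K) (e τ : Fin n → ZMod 3)
    (χ : Fin n → Fin n → ZMod 3) : Prop where
  root : ω ^ 2 + ω + 1 = 0
  prime : ∀ i, Prime (π i) ∧ (3 : 𝓞 K) ∣ π i - 1
  ne : ∀ i k, i ≠ k → π i ≠ π k
  exp : ∀ i, e i ≠ 0
  eq : D = ω ^ c.val * ∏ i, π i ^ (e i).val ∨ D = -(ω ^ c.val * ∏ i, π i ^ (e i).val)
  symb : ∀ i k, i ≠ k →
    π i ∣ π k ^ (((Algebra.norm ℤ (π i)).natAbs - 1) / 3) - ω ^ (χ i k).val
  symbRoot : ∀ i, π i ∣ ω ^ (((Algebra.norm ℤ (π i)).natAbs - 1) / 3) - ω ^ (τ i).val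

/-- The system of the residue symbols has only the zero solution. (The last equation follows from the
others if `c ≠ 0`.) -/
def OnlyZero (c : ZMod 3) {n : ℕ} (e τ : Fin n → ZMod 3) (χ : Fin n → Fin n → ZMod 3) : Prop :=
  ∀ x : Fin n → ZMod 3, (∀ i, ∑ k, e k * χ i k * (x k - x i) - c * τ i * x i = 0) →
    ∑ i, e i * τ i * x i = 0 → x = 0

theorem facts_of {ω D : 𝓞 K} {c : ZMod 3} {n : ℕ} {π : Fin n → 𝓞 K} {e τ : Fin n → ZMod 3}
    {χ : Fin n → Fin n → ZMod 3} (h : IsFactorization ω D c n π e τ χ) :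
    Pool.Agent.H91.Fin1.IsF ω D c n π e τ χ :=
  ⟨h.root, h.prime, h.ne, h.exp, h.eq, h.symb, h.symbRoot⟩

theorem of_facts {ω D : 𝓞 K} {c : ZMod 3} {n : ℕ} {π : Fin n → 𝓞 K} {e τ : Fin n → ZMod 3}
    {χ : Fin n → Fin n → ZMod 3} (h : Pool.Agent.H91.Fin1.IsF ω D c n π e τ χ) :
    IsFactorization ω D c n π e τ χ :=
  ⟨h.root, h.prime, h.ne, h.exp, h.eq, h.symb, h.symbr⟩

/-- `D` is squarefree and prime to `3`, and `|N(D)| ≤ X`. -/
def Family (X : ℕ) (D : 𝓞 K) : Prop :=
  |Algebra.norm ℤ D| ≤ X ∧ Squarefree D ∧ IsCoprime D 3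

/-- `8/9 (1 - 1/3) (1 - 1/27) (1 - 1/243) ⋯ = 0.5680...` -/
noncomputable def limit : ℝ := 8 / 9 * ∏' i : ℕ, (1 - (1 / 3 : ℝ) ^ (2 * i + 1))

/-- **Main result.** -/
theorem result (K : Type) [Field K] [NumberField K] [IsCyclotomicExtension {3} ℚ K] :
    (∀ D : 𝓞 K, InClass D →
      ThreePart D ∧
      (∃ (ω : 𝓞 K) (c : ZMod 3) (n : ℕ) (π : Fin n → 𝓞 K) (e τ : Fin n → ZMod 3)
        (χ : Fin n → Fin n → ZMod 3), IsFactorization ω D c n π e τ χ) ∧
      ∀ (ω : 𝓞 K) (c : ZMod 3) (n : ℕ) (π : Fin n → 𝓞 K) (e τ : Fin n → ZMod 3)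
        (χ : Fin n → Fin n → ZMod 3), IsFactorization ω D c n π e τ χ →
          (FiniteAndTrivial D ↔ OnlyZero c e τ χ)) ∧
    Filter.Tendsto (fun X : ℕ =>
        ({D : 𝓞 K | Family X D ∧ InClass D ∧ FiniteAndTrivial D}.ncard : ℝ) /
          ({D : 𝓞 K | Family X D}.ncard : ℝ)) Filter.atTop (nhds limit) ∧
    (0.568 < limit ∧ limit < 0.5681) ∧
    (∃ c : ℝ, 0 < c ∧ ∃ X₀ : ℕ, ∀ X : ℕ, X₀ ≤ X →
      c * X ≤ ({D : 𝓞 K | Family X D}.ncard : ℝ)) := by
  obtain ⟨⟨j, hj⟩, hdisc⟩ := Pool.Agent.Y455.CTK.jex K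
  refine ⟨fun D hD => ⟨?_, ?_, ?_⟩, ?_, ?_, ?_⟩
  · exact Pool.Agent.H91.Fin2.law2 j hj hdisc hD
  · obtain ⟨ω, c, n, π, e, τ, χ, h⟩ := Pool.Agent.H91.Fin2.fac2 j hj hD
    exact ⟨ω, c, n, π, e, τ, χ, of_facts h⟩
  · intro ω c n π e τ χ h
    exact Pool.Agent.H91.Fin2.crit2 j hj hD (facts_of h)
  · exact Pool.Agent.H91.XH.lim_K2 j hj
  · exact Pool.Agent.H91.XH.c9_val2
  · exact Pool.Agent.H91.Dz7.pos3 j hj

end Pool.Agent.Results.MP_1a91b9_nt.CubicTwistsEveryFactor
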