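import Mathlib
import Pool.Agent.H91.Sh7

/-!
# The conjecture of Birch and Swinnerton-Dyer over Kummer extensions of `ℚ(√-3)`

`K` is the field of third roots of unity, `E_D : y² + D y = x³` (over `K` it is isomorphic to
`x³ + y³ = D`). Let `D` be cubefree, prime to `3`, different from `1` and `-1` modulo `3 √-3`, not a
unit, with `E_D(K)` finite and `Ш(E_D/K)[3^∞] = 0`. The proportion of such `D` among all squarefree
numbers prime to `3`, ordered by the norm, tends to `8/9 P`, `P = ∏_{i ≥ 0} (1 - 3^{-(2 i + 1)})`,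
`8/9 P = 0.5680...`.

For an extension `F` of `K` of degree `3^k` we consider the statement `Holds k D F`: the complete
`L`-function `L(E_D/F, s)` is entire, `L(E_D/F, 1) ≠ 0`, the group `E_D(F)` is finite, and
`Ш(E_D/F)[3^∞]` is finite and killed by `3^k`.

(1) A system of primes `μ_1, …, μ_k` of `K` is admissible, if the `μ_i` are `1` modulo `3 √-3` and
prime to `D`, if each is a cube modulo each other, and if each `μ_i` is a cube modulo all the prime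
divisors of `D` except exactly one. For each admissible system, `k ≥ 1`, the statement holds for
`F = K(∛μ_1, …, ∛μ_k)`. A positive proportion of all primes `ν` extends an admissible system to an
admissible system `μ_1, …, μ_k, ν`; so there are infinite towers `K ⊂ F_1 ⊂ F_2 ⊂ ⋯` of this kind (as
many as one likes) for each `D`.

(2) The statement holds for `F = K(∛μ)` for at least the proportion `7/9 (2 P - 1) - ε`, that is for
more than `21.6 %`, of ALL squarefree `μ` prime to `3 D`, ordered by the norm.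
-/

set_option autoImplicit false

namespace Pool.Agent.Results.MP_1a91b9_nt.KummerTowers

open NumberField IsDedekindDomain WeierstrassCurve
open Pool.Agent.TH841.NF.D (Sha)
open scoped Classical

/-- The curve `E_D : y² + D y = x³`. -/
def curve {F : Type} [Field F] (D : F) : WeierstrassCurve F := ⟨0, 0, D, 0, 0⟩

/-- `E_D(F)` is finite, and the complete `L`-function of `E_D` over `F` has an entire continuation that
is not zero at `1`. -/
def RankZero {F : Type} [Field F] [NumberField F] (D : F) : Prop :=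
  Finite (curve D).toAffine.Point ∧
  ∃ Lf : ℂ → ℂ, Differentiable ℂ Lf ∧
    (∀ s : ℂ, 3 / 2 < s.re →
      LSeriesSummable ((fun n : ℤ => (n : ℂ)) ∘ (curve D).LFunction) s ∧
        Lf s = (curve D).LSeries s) ∧
    Lf 1 ≠ 0

/-- The `3`-primary part of `Ш(E_D / F)` is finite and killed by `m`. -/
def ShaPart {F : Type} [Field F] [NumberField F] (D : F) (m : ℕ) : Prop :=
  {x : Sha (curve D) | ∃ n : ℕ, 3 ^ n • x = 0}.Finite ∧
    ∀ (n : ℕ) (x : Sha (curve D)), 3 ^ n • x = 0 → m • x = 0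

variable {K : Type} [Field K] [NumberField K]

/-- `F` has degree `3^k` over `K`; `L(E_D/F, s)` is entire and not zero at `1`, the group `E_D(F)` is
finite, and `Ш(E_D/F)[3^∞]` is finite and killed by `3^k`. -/
def Holds (k : ℕ) (D : 𝓞 K) (F : Type) [Field F] [NumberField F] [Algebra K F] : Prop :=
  Module.finrank K F = 3 ^ k ∧ RankZero (algebraMap K F D) ∧ ShaPart (algebraMap K F D) (3 ^ k)

/-- `E_D(K)` is finite and the `3`-primary part of `Ш(E_D / K)` is trivial. -/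
def FiniteAndTrivial (D : 𝓞 K) : Prop :=
  Finite (curve (D : K)).toAffine.Point ∧ ∀ (n : ℕ) (x : Sha (curve (D : K))), 3 ^ n • x = 0 → x = 0

/-- `D` is cubefree, prime to `3`, different from `1` and `-1` modulo `3 √-3`, and not a unit. -/
def InClass (D : 𝓞 K) : Prop :=
  IsCoprime D 3 ∧ (∀ t : 𝓞 K, t ^ 2 = -3 → ¬ 3 * t ∣ D - 1 ∧ ¬ 3 * t ∣ D + 1) ∧
    (∀ p : 𝓞 K, p ^ 3 ∣ D → IsUnit p) ∧ ¬ IsUnit D

/-- The `μ i` are primes that are `1` modulo `3 √-3` and do not divide `D`, each of them is a cube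
modulo each other, and each `μ i` is a cube modulo all the prime divisors of `D` except exactly one. -/
structure Admissible (D : 𝓞 K) {k : ℕ} (μ : Fin k → 𝓞 K) : Prop where
  prime : ∀ i, Prime (μ i)
  one : ∀ (i : Fin k) (t : 𝓞 K), t ^ 2 = -3 → 3 * t ∣ μ i - 1
  ndvd : ∀ i, ¬ μ i ∣ D
  cube : ∀ i l, i ≠ l → ¬ μ i ∣ μ l ∧ ∃ x, μ i ∣ x ^ 3 - μ l
  single : ∀ i, ∃ p, Prime p ∧ p ∣ D ∧ (¬ ∃ x, p ∣ x ^ 3 - μ i) ∧
    ∀ q, Prime q → q ∣ D → ¬ Associated q p → ∃ x, q ∣ x ^ 3 - μ i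

theorem adm_iff {D : 𝓞 K} {k : ℕ} {μ : Fin k → 𝓞 K} : Admissible D μ ↔ Pool.Agent.H91.Tw.Adm D μ :=
  ⟨fun h => ⟨h.prime, h.one, h.ndvd, h.cube, h.single⟩,
    fun h => ⟨h.prime, h.one, h.ndvd, h.cube, h.single⟩⟩

/-- `D` is squarefree and prime to `3`, and `|N(D)| ≤ X`. -/
def Family (X : ℕ) (D : 𝓞 K) : Prop :=
  |Algebra.norm ℤ D| ≤ X ∧ Squarefree D ∧ IsCoprime D 3

/-- `μ` is squarefree and prime to `3 D`, and `|N(μ)| ≤ X`. -/
def Radicands (D : 𝓞 K) (X : ℕ) (μ : 𝓞 K) : Prop :=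
  |Algebra.norm ℤ μ| ≤ X ∧ Squarefree μ ∧ IsCoprime μ (3 * D)

/-- The statement for `E_D` over the cubic extension `F = K(∛μ)`. -/
def HoldsCubic (D μ : 𝓞 K) : Prop :=
  ∀ (F : Type) [Field F] [NumberField F] [Algebra K F] (θ : F), θ ^ 3 = algebraMap K F μ →
    IntermediateField.adjoin K {θ} = ⊤ → Holds 1 D F

/-- `(1 - 1/3) (1 - 1/27) (1 - 1/243) ⋯ = 0.6390...` -/
noncomputable def product : ℝ := ∏' i : ℕ, (1 - (1 / 3 : ℝ) ^ (2 * i + 1))

theorem fin_rad (j : Pool.Agent.Y692.QS.Ei ≃+* 𝓞 K)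
    (hj : ∀ z : Pool.Agent.Y692.QS.Ei, Algebra.norm ℤ (j z) = Pool.Agent.Y692.QS.nr z)
    (D : 𝓞 K) (X : ℕ) : {μ : 𝓞 K | Radicands D X μ ∧ HoldsCubic D μ}.Finite := by
  have h4 : {μ : 𝓞 K | Radicands D X μ ∧ HoldsCubic D μ} ⊆
      j '' {z : Pool.Agent.Y692.QS.Ei | Pool.Agent.Y692.QS.nr z ≤ X} := by
    rintro μ ⟨hμ, -⟩
    obtain ⟨z, rfl⟩ := j.surjective μ
    refine ⟨z, ?_, rfl⟩
    have := hμ.1
    rw [hj] at this
    exact (le_abs_self _).trans this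
  exact ((Pool.Agent.H91.Dz.fin_nr X).image _).subset h4

theorem holds_of (j : Pool.Agent.Y692.QS.Ei ≃+* 𝓞 K) {D μ : 𝓞 K} (h0 : D ≠ 0)
    (h : Pool.Agent.H91.XP.Gx D μ) : HoldsCubic D μ := by
  intro F _ _ _ θ hθ hgen
  obtain ⟨a1, a2, a3⟩ := h F θ hθ hgen
  refine ⟨by rw [a1, pow_one], a2, ?_, by rw [pow_one]; exact a3⟩
  refine Pool.Agent.H91.Sh.sha_fin (k := 1) (Pool.Agent.H91.Sh.om_F j) ?_ (by rw [pow_one]; exact a3)
  intro h
  rw [map_eq_zero] at h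
  exact h0 (RingOfIntegers.ext h)

/-- **Main result.** -/
theorem result (K : Type) [Field K] [NumberField K] [IsCyclotomicExtension {3} ℚ K] :
    (∀ D : 𝓞 K, InClass D → FiniteAndTrivial D →
      (∀ (k : ℕ) (μ : Fin (k + 1) → 𝓞 K), Admissible D μ →
        ∀ (F : Type) [Field F] [NumberField F] [Algebra K F] (θ : Fin (k + 1) → F),
          (∀ i, θ i ^ 3 = algebraMap K F (μ i)) → IntermediateField.adjoin K (Set.range θ) = ⊤ →
            Holds (k + 1) D F) ∧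
      (∀ (k : ℕ) (μ : Fin k → 𝓞 K), Admissible D μ → ∃ c : ℝ, 0 < c ∧ ∃ X₀ : ℕ, ∀ X : ℕ, X₀ ≤ X →
        c * (Nat.primeCounting X : ℝ) ≤ ({ν : 𝓞 K | |Algebra.norm ℤ ν| ≤ X ∧
          Admissible D (Fin.snoc (α := fun _ => 𝓞 K) μ ν)}.ncard : ℝ)) ∧
      (∃ μ : ℕ → 𝓞 K, ∀ n : ℕ, Admissible D fun i : Fin n => μ i) ∧
      ∀ ε : ℝ, 0 < ε → ∃ X₀ : ℕ, ∀ X : ℕ, X₀ ≤ X →
        (7 / 9 * (2 * product - 1) - ε) * ({μ : 𝓞 K | Radicands D X μ}.ncard : ℝ) ≤
          ({μ : 𝓞 K | Radicands D X μ ∧ HoldsCubic D μ}.ncard : ℝ)) ∧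
    Filter.Tendsto (fun X : ℕ =>
        ({D : 𝓞 K | Family X D ∧ InClass D ∧ FiniteAndTrivial D}.ncard : ℝ) /
          ({D : 𝓞 K | Family X D}.ncard : ℝ)) Filter.atTop (nhds (8 / 9 * product)) ∧
    0.216 < 7 / 9 * (2 * product - 1) ∧ 0.568 < 8 / 9 * product := by
  obtain ⟨⟨j, hj⟩, hdisc⟩ := Pool.Agent.Y455.CTK.jex K
  have h1 : (0.568 : ℝ) < 8 / 9 * product ∧ 8 / 9 * product < (0.5681 : ℝ) :=
    Pool.Agent.H91.XH.c9_val2
  refine ⟨fun D hD hT => ⟨?_, ?_, ?_, ?_⟩, ?_, ?_, h1.1⟩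
  · intro k μ hμ F _ _ _ θ hθ hgen
    obtain ⟨a1, a2⟩ := Pool.Agent.H91.Tw.rank_zero j hj hdisc hD hT (adm_iff.1 hμ) θ hθ hgen
    exact ⟨a1, a2, (Pool.Agent.H91.Sh.sha_adm j hj hdisc hD hT (adm_iff.1 hμ) θ hθ hgen).2⟩
  · intro k μ hμ
    obtain ⟨c, hc, X₀, h⟩ := Pool.Agent.H91.Tw.dens_ext j hj hD (adm_iff.1 hμ)
    refine ⟨c, hc, X₀, fun X hX => ?_⟩
    have := h X hX
    simp only [adm_iff]
    exact this
  · obtain ⟨μ, h⟩ := Pool.Agent.H91.Tw.seq_ex j hj hD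
    exact ⟨μ, fun n => adm_iff.2 (h n)⟩
  · intro ε hε
    obtain ⟨X₀, h⟩ := (Pool.Agent.H91.XP.prop_K j hj hdisc hD hT).1 ε hε
    refine ⟨X₀, fun X hX => (h X hX).trans ?_⟩
    have hD0 : D ≠ 0 := by
      rintro rfl
      exact hD.2.2.2 (hD.2.2.1 0 (dvd_zero _))
    have hsub : {μ : 𝓞 K | Pool.Agent.H91.XP.Fam D X μ ∧ Pool.Agent.H91.XP.Gx D μ} ⊆
        {μ : 𝓞 K | Radicands D X μ ∧ HoldsCubic D μ} := by
      rintro μ ⟨g1, g2⟩
      exact ⟨g1, holds_of j hD0 g2⟩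
    exact_mod_cast Set.ncard_le_ncard hsub (fin_rad j hj D X)
  · exact Pool.Agent.H91.XH.lim_K2 j hj
  · linarith [h1.1]

end Pool.Agent.Results.MP_1a91b9_nt.KummerTowers
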